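import Pool.Agent.LE.StmtsQX

/-!
# Row TOF of table lqx: the torus
-/

set_option autoImplicit false

open MeasureTheory ProbabilityTheory Function Filter

open scoped ENNReal BigOperators Topology NNReal ComplexOrder Matrix

noncomputable section

namespace Pool.Agent.LE.QX.H30

open Pool.Agent.Anderson hiding box mem_box card_box
open Pool.Agent.Loc Pool.Agent.Mob Pool.Agent.Helper54.Bal
  Pool.Agent.Helper96.EXP Pool.Agent.BED
open Pool.Agent.LE.MN Pool.Agent.LE.CL Pool.Agent.LE.IR Pool.Agent.LE.QD Pool.Agent.LE.QF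

/-- from eventually to a threshold -/
theorem small_of_ev {P : ℝ → Prop} (h : ∀ᶠ s in 𝓝[>] (0 : ℝ), P s) :
    ∃ c : ℝ, 0 < c ∧ ∀ s, 0 < s → s ≤ c → P s := by
  obtain ⟨u, hu, hs⟩ := mem_nhdsGT_iff_exists_Ioc_subset.1 h
  exact ⟨u, hu, fun s h0 h1 => hs ⟨h0, h1⟩⟩

theorem ev_rpow {r ρ K : ℝ} (hr : 0 < r) (hρ : 0 < ρ) :
    ∀ᶠ s in 𝓝[>] (0 : ℝ), K * s ^ r ≤ ρ := by
  have h1 : Tendsto (fun s : ℝ => K * s ^ r) (𝓝[>] 0) (𝓝 (K * 0)) := by
    apply Tendsto.const_mul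
    have h2 : Tendsto (fun s : ℝ => s ^ r) (𝓝 0) (𝓝 ((0 : ℝ) ^ r)) :=
      (Real.continuousAt_rpow_const 0 r (Or.inr hr.le)).tendsto
    rw [Real.zero_rpow hr.ne'] at h2
    exact h2.mono_left nhdsWithin_le_nhds
  rw [mul_zero] at h1
  exact (h1.eventually (gt_mem_nhds hρ)).mono fun s hs => hs.le

theorem ev_exp {θ B K : ℝ} (hθ : 0 < θ) :
    ∀ᶠ s in 𝓝[>] (0 : ℝ), K * (s ^ (-B) * Real.exp (-(s ^ (-θ) / 8))) ≤ 1 := by
  have h1 : Tendsto (fun s : ℝ => s ^ (-θ)) (𝓝[>] 0) atTop :=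
    tendsto_rpow_neg_nhdsGT_zero (by linarith)
  have h2 := (tendsto_rpow_mul_exp_neg_mul_atTop_nhds_zero (B / θ) (1 / 8) (by norm_num)).comp h1
  have h3 := h2.const_mul K
  rw [mul_zero] at h3
  have h4 := h3.eventually (gt_mem_nhds (zero_lt_one))
  filter_upwards [h4, self_mem_nhdsWithin] with s hs hs0
  have hs0' : (0 : ℝ) < s := hs0
  have e1 : (s ^ (-θ)) ^ (B / θ) = s ^ (-B) := by
    rw [← Real.rpow_mul hs0'.le]
    congr 1
    field_simp
  have e2 : K * (s ^ (-B) * Real.exp (-(s ^ (-θ) / 8))) =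
      K * ((s ^ (-θ)) ^ (B / θ) * Real.exp (-(1 / 8) * s ^ (-θ))) := by
    rw [e1]
    congr 3
    ring
  rw [e2]
  exact hs.le

theorem adm_mono {d M : ℕ} [NeZero M] {D : Dat d M} {c₁ C₁ c₀ c₀' : ℝ}
    (h : Adm D c₁ C₁ c₀) (hc : c₀ ≤ c₀') : Adm D c₁ C₁ c₀' :=
  { h with
    hδ := ⟨h.hδ.1, h.hδ.2.1, h.hδ.2.2.trans hc⟩
    hk := ⟨h.hk.1, h.hk.2.1.trans hc, h.hk.2.2⟩ }

/-- **TOF** -/
theorem tof (hIni : IniStmt) (hUpr : UprStmt) (hOut : OutStmt) : TofStmt := by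
  intro d a ε hd ha hε hε1
  obtain ⟨θ, c₁, C₁, hθ, hθ1, hc₁, hC₁, hI⟩ := hIni d a ε hd ha hε hε1
  obtain ⟨cU, CU, hcU, -, hCU, hU⟩ := hUpr c₁ C₁ hc₁ hC₁
  obtain ⟨cO, CO, hcO, -, hCO, hO⟩ := hOut c₁ C₁ hc₁ hC₁
  obtain ⟨cI, CI, hcI, hcI4, hCI, hI'⟩ := hI (min cU cO) (lt_min hcU hcO)
  have hd3 : (3 : ℝ) ≤ d := by exact_mod_cast hd
  have hCU0 : 0 < CU := by linarith
  have hCI0 : 0 < CI := by linarith
  have hCO0 : 0 < CO := by linarith
  -- the thresholds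
  obtain ⟨t1, ht1, hs1⟩ := small_of_ev ((ev_rpow (K := 2 * CU * CI) (r := 3 * θ) (ρ := 1)
    (by linarith) (by norm_num)).and
    (ev_rpow (K := 1) (r := 2 * θ) (ρ := 7 / 8) (by linarith) (by norm_num)))
  obtain ⟨t2, ht2, hs2⟩ := small_of_ev (ev_exp (θ := 4 * θ) (B := 2)
    (K := 6 * CU * (2 + CI)) (by linarith))
  obtain ⟨t3, ht3, hs3⟩ := small_of_ev (ev_rpow (K := 3 * CO + 1) (r := 3 * θ) (ρ := 1)
    (by linarith) (by norm_num))
  refine ⟨θ, min (min cI (c₁ / 2)) (min t1 (min t2 t3)), hθ, hθ1, ?_, ?_, ?_⟩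
  · exact lt_min (lt_min hcI (by linarith)) (lt_min ht1 (lt_min ht2 ht3))
  · exact (min_le_left _ _).trans ((min_le_left _ _).trans hcI4)
  intro M _ v σ E η hv hσ hσc hE1 hE2 hη1 hη2 hM1 hM2
  obtain ⟨s, hs⟩ : ∃ s, s = |σ| := ⟨_, rfl⟩
  rw [← hs] at hσc hE1 hη1 hη2 hM1 hM2 ⊢
  have hs0 : 0 < s := by rw [hs]; exact abs_pos.2 hσ
  have hc1 : s ≤ cI := hσc.trans ((min_le_left _ _).trans (min_le_left _ _))
  have hc3 : s ≤ t1 := hσc.trans ((min_le_right _ _).trans (min_le_left _ _))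
  have hc4 : s ≤ t2 := hσc.trans ((min_le_right _ _).trans ((min_le_right _ _).trans
    (min_le_left _ _)))
  have hc5 : s ≤ t3 := hσc.trans ((min_le_right _ _).trans ((min_le_right _ _).trans
    (min_le_right _ _)))
  obtain ⟨hn1, hn2⟩ := hs1 s hs0 hc3
  have hn3 := hs2 s hs0 hc4
  have hn4 := hs3 s hs0 hc5
  have hs1' : s ≤ 1 := by linarith
  obtain ⟨D, hAdm, hDE, hDη, hDT, hDa, hDp, hDδ, hDe, hDb, hDS⟩ :=
    hI' M σ E η hσ (by rw [← hs]; exact hc1) (by rw [← hs]; exact hE1) hE2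
      (by rw [← hs]; exact hη1) (by rw [← hs]; exact hη2) (by rw [← hs]; exact hM1)
      (by rw [← hs]; exact hM2)
  rw [← hs] at hDa hDp hDδ hDe hDb hDS
  have hη0 : 0 < η := (Real.exp_pos _).trans_le hη1
  have hη3 : η ≤ 1 := hη2.trans (pow_le_one₀ hs0.le hs1')
  have hMpos : (0 : ℝ) < M := by
    exact_mod_cast Nat.pos_of_ne_zero (NeZero.ne M)
  subst hDE
  subst hDη
  -- the event
  have hsub : {V | ¬ ((∀ x, min (min cI (c₁ / 2)) (min t1 (min t2 t3)) ≤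
        (rs V ⟨D.E, D.η⟩ x x).im) ∧
      ∀ C' : Finset (Tor d M), (C'.card : ℝ) ≤ (s ^ (ε - 1) / Real.sqrt D.η) ^ d →
        mss V ⟨D.E, D.η⟩ C' ≤ s ^ θ * C'.card / D.η)} ⊆ {V | 1 ≤ D.U (D.T, V)} := by
    intro V hV
    rw [Set.mem_ofPred_eq] at hV ⊢
    by_contra hlt
    push Not at hlt
    apply hV
    obtain ⟨h1, h2⟩ := hO d M D V (adm_mono hAdm (min_le_right _ _)) hlt
    refine ⟨fun x => ?_, fun C' hC' => ?_⟩
    · exact ((min_le_left _ _).trans (min_le_right _ _)).trans (h1 x)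
    · have h3 := h2 C'
      have h4 := hDS C' hC'
      have hcard : (0 : ℝ) ≤ C'.card := Nat.cast_nonneg _
      have h5 : (C'.card : ℝ) / (M : ℝ) ^ d ≤ s ^ (4 * θ) := by
        rw [div_le_iff₀ (by positivity)]
        have hsq : 0 < Real.sqrt D.η := Real.sqrt_pos.2 hη0
        have hsq1 : Real.sqrt D.η ≤ 1 := Real.sqrt_le_one.2 hη3
        have hsqe : Real.sqrt D.η * Real.sqrt D.η = D.η := Real.mul_self_sqrt hη0.le
        have hsε : 0 < s ^ (ε - 1) := Real.rpow_pos_of_pos hs0 _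
        have h6 : s ^ (ε - 1) / Real.sqrt D.η ≤ s ^ (4 * θ) * M := by
          rw [div_le_iff₀ hsq]
          have e1 : s ^ (ε - 1) ≤ s ^ (-1 : ℝ) :=
            Real.rpow_le_rpow_of_exponent_ge hs0 hs1' (by linarith)
          have e2 : s ^ (-1 : ℝ) = 1 / s := by rw [Real.rpow_neg_one, one_div]
          have e3 : s ≤ s ^ (4 * θ) := by
            calc s = s ^ (1 : ℝ) := (Real.rpow_one s).symm
              _ ≤ s ^ (4 * θ) :=
                Real.rpow_le_rpow_of_exponent_ge hs0 hs1' (by linarith)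
          have e4 : 1 / s ≤ s * M * Real.sqrt D.η := by
            rw [div_le_iff₀ hs0]
            have e5 : s ^ 4 * D.η ^ 2 * M ≤ s * M * Real.sqrt D.η * s := by
              have e6 : s ^ 4 * D.η ^ 2 * M = s * M * Real.sqrt D.η * s *
                  (s ^ 2 * (D.η * Real.sqrt D.η)) := by
                calc s ^ 4 * D.η ^ 2 * M = s ^ 4 * (D.η * (Real.sqrt D.η * Real.sqrt D.η)) * M := by
                      rw [hsqe]; ring
                  _ = _ := by ring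
              rw [e6]
              apply mul_le_of_le_one_right (by positivity)
              exact mul_le_one₀ (pow_le_one₀ hs0.le hs1') (by positivity)
                (mul_le_one₀ hη3 hsq.le hsq1)
            exact hM1.trans e5
          calc s ^ (ε - 1) ≤ 1 / s := by rw [← e2]; exact e1
            _ ≤ s * M * Real.sqrt D.η := e4
            _ ≤ s ^ (4 * θ) * M * Real.sqrt D.η := by gcongr
        have h7 : (s ^ (ε - 1) / Real.sqrt D.η) ^ d ≤ (s ^ (4 * θ) * M) ^ d :=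
          pow_le_pow_left₀ (div_nonneg hsε.le hsq.le) h6 d
        refine hC'.trans (h7.trans ?_)
        rw [mul_pow]
        apply mul_le_mul_of_nonneg_right _ (by positivity)
        have hsθ := Real.rpow_nonneg hs0.le (4 * θ)
        have hsθ1 : s ^ (4 * θ) ≤ 1 := Real.rpow_le_one hs0.le hs1' (by linarith)
        calc (s ^ (4 * θ)) ^ d ≤ (s ^ (4 * θ)) ^ 1 :=
              pow_le_pow_of_le_one hsθ hsθ1 (by omega)
          _ = s ^ (4 * θ) := pow_one _
      have h8 : D.δ + (D.e₀ - 1) + (C'.card : ℝ) / (M : ℝ) ^ d ≤ 3 * s ^ (4 * θ) := by linarith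
      have h9 : CO / D.η * (D.δ + (D.e₀ - 1) + (C'.card : ℝ) / (M : ℝ) ^ d) * C'.card ≤
          CO / D.η * (3 * s ^ (4 * θ)) * C'.card := by
        apply mul_le_mul_of_nonneg_right _ hcard
        exact mul_le_mul_of_nonneg_left h8 (by positivity)
      have h10 : CO / D.η * (3 * s ^ (4 * θ)) * C'.card + s ^ (4 * θ) * C'.card / D.η =
          ((3 * CO + 1) * s ^ (3 * θ)) * (s ^ θ * C'.card / D.η) := by
        have e : s ^ (4 * θ) = s ^ (3 * θ) * s ^ θ := by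
          rw [← Real.rpow_add hs0]
          congr 1
          ring
        rw [e]
        field_simp
      have h11 : ((3 * CO + 1) * s ^ (3 * θ)) * (s ^ θ * C'.card / D.η) ≤
          1 * (s ^ θ * C'.card / D.η) := by
        apply mul_le_mul_of_nonneg_right hn4
        have := Real.rpow_nonneg hs0.le θ
        positivity
      rw [one_mul] at h11
      linarith
  refine (measure_mono hsub).trans ?_
  refine (hU d M D v (adm_mono hAdm (min_le_left _ _)) (by rw [hv, hDT])).trans ?_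
  apply ENNReal.ofReal_le_ofReal
  -- the numbers
  obtain ⟨ℓ, hℓ⟩ : ∃ ℓ, ℓ = 1 + Real.log (D.w / D.η) := ⟨_, rfl⟩
  rw [← hℓ]
  have hw0 : D.η ≤ D.w := by
    unfold Dat.w Dat.kp
    have h1 := hAdm.hT.1
    have h2 := hAdm.hm.1
    have : 0 ≤ (D.T - 0) * D.m.im := mul_nonneg (by linarith) (by linarith)
    linarith
  have hDw : D.w ≤ 1 := hAdm.hT.2.2.1
  have hℓ1 : 1 ≤ ℓ := by
    rw [hℓ]
    have : 0 ≤ Real.log (D.w / D.η) := Real.log_nonneg (by rw [le_div_iff₀ hη0]; linarith)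
    linarith
  have hsθ0 : 1 ≤ s ^ (-θ) := Real.one_le_rpow_of_pos_of_le_one_of_nonpos hs0 hs1' (by linarith)
  have hℓ2 : ℓ ≤ 2 * s ^ (-θ) := by
    rw [hℓ]
    have h1 : Real.log (D.w / D.η) ≤ Real.log (1 / D.η) := by
      apply Real.log_le_log (div_pos (by linarith) hη0)
      exact div_le_div_of_nonneg_right hDw hη0.le
    have h2 : Real.log (1 / D.η) ≤ s ^ (-θ) := by
      rw [one_div, Real.log_inv]
      have h3 : Real.log (Real.exp (-(s ^ (-θ)))) ≤ Real.log D.η :=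
        Real.log_le_log (Real.exp_pos _) hη1
      rw [Real.log_exp] at h3
      linarith
    linarith
  have hsi : 1 ≤ 1 / s := by rw [le_div_iff₀ hs0]; linarith
  have haN : CU * D.aN * ℓ ≤ 1 := by
    have hsθ := Real.rpow_nonneg hs0.le (4 * θ)
    have h1 : CU * D.aN * ℓ ≤ CU * (CI * s ^ (4 * θ)) * (2 * s ^ (-θ)) := by
      have h2 : CU * D.aN ≤ CU * (CI * s ^ (4 * θ)) :=
        mul_le_mul_of_nonneg_left hDa (by linarith)
      calc CU * D.aN * ℓ ≤ CU * (CI * s ^ (4 * θ)) * ℓ :=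
            mul_le_mul_of_nonneg_right h2 (by linarith)
        _ ≤ _ := mul_le_mul_of_nonneg_left hℓ2 (by positivity)
    have h3 : CU * (CI * s ^ (4 * θ)) * (2 * s ^ (-θ)) = 2 * CU * CI * s ^ (3 * θ) := by
      have e : s ^ (3 * θ) = s ^ (4 * θ) * s ^ (-θ) := by
        rw [← Real.rpow_add hs0]
        congr 1
        ring
      rw [e]
      ring
    linarith
  have hexp : Real.exp (CU * D.aN * ℓ) ≤ 3 := by
    refine (Real.exp_le_exp.2 haN).trans ?_
    have := Real.exp_one_lt_d9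
    linarith
  have hsθ1 : s ^ (4 * θ) ≤ 1 := Real.rpow_le_one hs0.le hs1' (by linarith)
  have hp1 : (D.p : ℝ) ≤ 1 / s := by
    have h1 : s ^ (-1 : ℝ) = 1 / s := by rw [Real.rpow_neg_one, one_div]
    rwa [h1] at hDp
  have hw1 : 0 < D.w := by linarith
  have hδ0 := hAdm.hδ.1
  have hε0 : 0 < D.ε₁ := by
    have := hAdm.hδ.2.1
    linarith
  have he0 : 0 ≤ D.e₀ - 1 := by
    have h1 := hAdm.he.1
    have h2 := hAdm.he.2.1
    linarith
  have he1 : 0 < D.e₁ := by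
    have h1 := hAdm.he.1
    linarith
  obtain ⟨-, -, hL0, hN0, hπ0⟩ := hAdm.hj
  have hL0' : 0 < D.L₀ := by linarith
  have hN0' : 0 < D.N := by linarith
  have haN0 : 0 ≤ D.aN := by
    unfold Dat.aN Dat.ch Dat.h
    positivity
  have haN2 : 1 + D.aN + D.p ≤ (2 + CI) * (1 / s) := by
    have h1 : D.aN ≤ CI := hDa.trans (mul_le_of_le_one_right hCI0.le hsθ1)
    have h2 : CI ≤ CI * (1 / s) := le_mul_of_one_le_right hCI0.le hsi
    linarith only [h1, h2, hsi, hp1]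
  have hℓ3 : ℓ ≤ 2 * (1 / s) := by
    have h1 : s ^ (-θ) ≤ s ^ (-1 : ℝ) :=
      Real.rpow_le_rpow_of_exponent_ge hs0 hs1' (by linarith)
    have h2 : s ^ (-1 : ℝ) = 1 / s := by rw [Real.rpow_neg_one, one_div]
    rw [h2] at h1
    linarith only [h1, hℓ2]
  have hbN0 : 0 ≤ D.bN := by
    unfold Dat.bN
    positivity
  have hsi0 : 0 < 1 / s := by positivity
  have hmid : CU * (1 + D.aN + D.p) * ℓ * D.bN ≤
      CU * ((2 + CI) * (1 / s)) * (2 * (1 / s)) * Real.exp (-(s ^ (-(4 * θ)))) := by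
    apply mul_le_mul _ hDb hbN0 (by positivity)
    apply mul_le_mul _ hℓ3 (by linarith) (by positivity)
    exact mul_le_mul_of_nonneg_left haN2 hCU0.le
  have hmid0 : 0 ≤ CU * (1 + D.aN + D.p) * ℓ * D.bN := by positivity
  -- the exponentials
  have hy0 : 0 < s ^ (-(2 * θ)) := Real.rpow_pos_of_pos hs0 _
  have hyx : s ^ (-(4 * θ)) = s ^ (-(2 * θ)) * s ^ (-(2 * θ)) := by
    rw [← Real.rpow_add hs0]
    congr 1
    ring
  have hy1 : 8 / 7 ≤ s ^ (-(2 * θ)) := by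
    rw [one_mul] at hn2
    have h1 : s ^ (2 * θ) * s ^ (-(2 * θ)) = 1 := by
      rw [← Real.rpow_add hs0, add_neg_cancel, Real.rpow_zero]
    have h2 := mul_le_mul_of_nonneg_right hn2 hy0.le
    linarith only [h1, h2]
  have hee : Real.exp (-(s ^ (-(4 * θ)))) ≤
      Real.exp (-(s ^ (-(4 * θ)) / 8)) * Real.exp (-(s ^ (-(2 * θ)))) := by
    rw [← Real.exp_add]
    apply Real.exp_le_exp.2
    rw [hyx]
    have h2 := mul_le_mul_of_nonneg_left hy1 hy0.le
    linarith only [h2]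
  calc Real.exp (CU * D.aN * ℓ) * (CU * (1 + D.aN + D.p) * ℓ * D.bN) ≤
      3 * (CU * ((2 + CI) * (1 / s)) * (2 * (1 / s)) *
        (Real.exp (-(s ^ (-(4 * θ)) / 8)) * Real.exp (-(s ^ (-(2 * θ)))))) := by
        apply mul_le_mul hexp _ hmid0 (by norm_num)
        exact hmid.trans (mul_le_mul_of_nonneg_left hee (by positivity))
    _ = (6 * CU * (2 + CI) * (s ^ (-(2 : ℝ)) * Real.exp (-(s ^ (-(4 * θ)) / 8)))) *
        Real.exp (-(s ^ (-(2 * θ)))) := by
        have e1 : s ^ (-(2 : ℝ)) = (1 / s) * (1 / s) := by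
          have e2 : (-(2 : ℝ)) = -1 + -1 := by norm_num
          rw [e2, Real.rpow_add hs0, Real.rpow_neg_one, one_div]
        rw [e1]
        ring
    _ ≤ 1 * Real.exp (-(s ^ (-(2 * θ)))) :=
        mul_le_mul_of_nonneg_right hn3 (Real.exp_nonneg _)
    _ = Real.exp (-(s ^ (-(2 * θ)))) := one_mul _

end Pool.Agent.LE.QX.H30
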